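import Pool.Agent.Zk61.KP.Node

set_option autoImplicit false

/-!
# The planar case, and choices of parameters
-/

open MeasureTheory Set Metric
open scoped ENNReal

namespace Pool.Agent.Zk61.KP

theorem exists_pow {η : ℝ} (hη : 0 < η) : ∃ C : ℝ, 1 ≤ C ∧ ∀ Y : ℝ, 1 ≤ Y →
    ∃ J : ℕ, 1 ≤ J ∧ Y ≤ 2 ^ J ∧ (J : ℝ) ≤ C * Y ^ η := by
  have hl2 : 0 < Real.log 2 := Real.log_pos (by norm_num)
  refine ⟨1 / (η * Real.log 2) + 2, ?_, ?_⟩
  · have : 0 < 1 / (η * Real.log 2) := by positivity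
    linarith
  intro Y hY
  have hY0 : 0 < Y := by linarith
  refine ⟨⌈Real.logb 2 Y⌉₊ + 1, by omega, ?_, ?_⟩
  · have h1 : Real.logb 2 Y ≤ (⌈Real.logb 2 Y⌉₊ : ℝ) := Nat.le_ceil _
    have h2 : Y ≤ (2 : ℝ) ^ (⌈Real.logb 2 Y⌉₊ : ℝ) := by
      rw [← Real.logb_le_iff_le_rpow (by norm_num) hY0]
      exact h1
    rw [Real.rpow_natCast] at h2
    refine h2.trans ?_
    exact pow_le_pow_right₀ (by norm_num) (by omega)
  · have h0 : 0 ≤ Real.logb 2 Y := Real.logb_nonneg (by norm_num) hY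
    have h1 : (⌈Real.logb 2 Y⌉₊ : ℝ) < Real.logb 2 Y + 1 := Nat.ceil_lt_add_one h0
    have h2 : Real.log Y ≤ Y ^ η / η := Real.log_le_rpow_div hY0.le hη
    have h3 : 1 ≤ Y ^ η := Real.one_le_rpow hY hη.le
    have h4 : Real.logb 2 Y ≤ 1 / (η * Real.log 2) * Y ^ η := by
      rw [Real.logb, div_le_iff₀ hl2]
      refine h2.trans (le_of_eq ?_)
      field_simp
    push_cast
    nlinarith

theorem real_bound {n : ℕ} {S : Set (E n)} {A B : ℝ} (hA : 0 < A) (hB : 0 ≤ B)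
    (h : ENNReal.ofReal A * volume S ≤ ENNReal.ofReal B) : A * volume.real S ≤ B := by
  have h1 := ENNReal.toReal_mono ENNReal.ofReal_ne_top h
  rwa [ENNReal.toReal_mul, ENNReal.toReal_ofReal hA.le, ENNReal.toReal_ofReal hB] at h1

theorem finite_of_bound {n : ℕ} {S : Set (E n)} {A B : ℝ} (hA : 0 < A)
    (h : ENNReal.ofReal A * volume S ≤ ENNReal.ofReal B) : volume S ≠ ∞ := by
  intro h1
  rw [h1, ENNReal.mul_top (by simpa using hA)] at h
  exact absurd h (by simp)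

/-- The constant of the counting lemma for layered families. -/
noncomputable def CK (n : ℕ) (K : ℝ) : ℝ := Cc n * (2 * K) ^ n

theorem CK_pos {n : ℕ} {K : ℝ} (hK : 1 ≤ K) : 0 < CK n K := by
  have := Cc_pos n
  unfold CK
  positivity

open Classical in
/-- The planar case. -/
theorem base {n d : ℕ} (hn : 1 + d = n) {K : ℝ} (hK : 1 ≤ K) {ε : ℝ} (hε : 0 < ε) :
    ∃ C : ℝ, 0 < C ∧ ∀ (ι : Type) (a e : ι → E n) (s : Finset ι) (V : AffineSubspace ℝ (E n))
      (δ D lam : ℝ), 0 < δ → δ ≤ 1 → (∀ i ∈ s, ‖e i‖ = 1) →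
      (∀ i ∈ s, ∀ j ∈ s, i ≠ j → δ ≤ ‖e i - e j‖) →
      Lay K D δ (fun i => tube δ (a i) (e i)) 0 V s → 1 ≤ lam → lam ≤ s.card →
      volume.real {x | lam ≤ (cnt (fun i => tube δ (a i) (e i)) s x : ℝ)} * lam ^ 2 ≤
        C * (δ ^ d * s.card) * ((s.card : ℝ) / lam) ^ ε := by
  obtain ⟨C1, hC1, hJ⟩ := exists_pow hε
  have hCK := CK_pos (n := n) hK
  refine ⟨2 ^ (d + 4) * (K + 1) * CK n K * C1 * 2 ^ ε, by positivity, ?_⟩
  intro ι a e s V δ D lam hδ hδ1 he hsep hLay hlam hlamN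
  have hlam0 : 0 < lam := by linarith
  have hN0 : (0 : ℝ) < s.card := by linarith
  obtain ⟨J, hJ1, hJ2, hJ3⟩ := hJ (2 * s.card / lam) (by
    rw [le_div_iff₀ hlam0]; linarith)
  rw [div_le_iff₀ hlam0] at hJ2
  have hfr := hLay.1
  have hT := hLay.2
  have hu : ∀ i, ∃ u ∈ V.direction, ‖u‖ = 1 ∧ inner ℝ u (e i) = 0 := fun i =>
    exists_unit_perp (by omega) (e i)
  choose u hu1 hu2 hu3 using hu
  have hb := core_b hn a e s id (K := K) (m := 1) (P := lam) (M := CK n K) hδ (by linarith) le_rfl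
    hlam0 hCK he u (fun i => inner ℝ (u i) (a i)) (fun i _ => hu2 i)
    (by
      intro i hi x hx
      show |inner ℝ (u i) x - inner ℝ (u i) (a i)| ≤ K * δ
      rw [← inner_sub_right]
      refine (inner_perp (hu2 i) (hu3 i) hx.2).trans ?_
      nlinarith)
    (by
      intro l _ φ hφ
      have := count_node (q := 1) hfr s a e hδ hδ1 hK he hsep hT (hu2 l) (hu1 l) hφ
      rw [pow_one] at this
      exact this)
    J (by linarith)
  have hsub : {x | lam ≤ (cnt (fun i => tube δ (a i) (e i)) s x : ℝ)} ⊆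
      G (fun i => tube δ (a i) (e i)) s id 1 lam := by
    intro x hx
    have hx1 : lam ≤ (cnt (fun i => tube δ (a i) (e i)) s x : ℝ) := hx
    show lam ≤ _
    refine hx1.trans ?_
    unfold cnt
    norm_cast
    apply Finset.card_le_card
    intro i hi
    rw [Finset.mem_filter] at hi ⊢
    refine ⟨by simpa using hi.1, ?_⟩
    rw [Nat.succ_le_iff, Finset.card_pos]
    exact ⟨i, by simp [hi.1, hi.2]⟩
  have hA : (0 : ℝ) < 1 * lam ^ 2 / 2 := by positivity
  have hB : 0 ≤ (2 * δ) ^ d * (2 * (K + 1)) * ((s.image id).card * (CK n K * (2 + 2 * J))) := by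
    positivity
  have h1 := real_bound hA hB hb
  have h2 : volume.real {x | lam ≤ (cnt (fun i => tube δ (a i) (e i)) s x : ℝ)} ≤
      volume.real (G (fun i => tube δ (a i) (e i)) s id 1 lam) :=
    measureReal_mono hsub (finite_of_bound hA hb)
  rw [Finset.image_id] at h1
  have hJr : (1 : ℝ) ≤ J := by exact_mod_cast hJ1
  have h3 : (2 * (s.card : ℝ) / lam) ^ ε = 2 ^ ε * ((s.card : ℝ) / lam) ^ ε := by
    rw [mul_div_assoc, Real.mul_rpow (by norm_num) (by positivity)]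
  rw [h3] at hJ3
  calc volume.real {x | lam ≤ (cnt (fun i => tube δ (a i) (e i)) s x : ℝ)} * lam ^ 2
      ≤ volume.real (G (fun i => tube δ (a i) (e i)) s id 1 lam) * lam ^ 2 := by gcongr
    _ = 2 * (1 * lam ^ 2 / 2 * volume.real (G (fun i => tube δ (a i) (e i)) s id 1 lam)) := by ring
    _ ≤ 2 * ((2 * δ) ^ d * (2 * (K + 1)) * (s.card * (CK n K * (2 + 2 * J)))) := by gcongr
    _ ≤ 2 * ((2 * δ) ^ d * (2 * (K + 1)) * (s.card * (CK n K * (4 * J)))) := by gcongr; linarith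
    _ ≤ 2 * ((2 * δ) ^ d * (2 * (K + 1)) * (s.card * (CK n K *
          (4 * (C1 * (2 ^ ε * ((s.card : ℝ) / lam) ^ ε)))))) := by gcongr
    _ = _ := by rw [mul_pow]; ring

end Pool.Agent.Zk61.KP
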