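import Mathlib

set_option autoImplicit false

/-!
# Volumes of boxes, tubes and slabs
-/

open MeasureTheory Set Metric
open scoped ENNReal

namespace Pool.Agent.Zk61.KP

/-- The space `ℝ^n`. -/
abbrev E (n : ℕ) : Type := EuclideanSpace ℝ (Fin n)

/-- The `δ`-tube with centre `a` and direction `e`. -/
def tube {n : ℕ} (δ : ℝ) (a e : EuclideanSpace ℝ (Fin n)) : Set (EuclideanSpace ℝ (Fin n)) :=
  {y | |inner ℝ (y - a) e| ≤ 1 / 2 ∧ ‖(y - a) - (inner ℝ (y - a) e) • e‖ ≤ δ}

theorem vol_box0 {n : ℕ} {κ : Type} [Fintype κ] (b : OrthonormalBasis κ ℝ (E n)) (lo hi : κ → ℝ) :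
    volume {x : E n | ∀ l, inner ℝ (b l) x ∈ Icc (lo l) (hi l)} =
      ∏ l, ENNReal.ofReal (hi l - lo l) := by
  have h1 : {x : E n | ∀ l, inner ℝ (b l) x ∈ Icc (lo l) (hi l)} =
      b.repr ⁻¹' ((@WithLp.ofLp 2 (κ → ℝ)) ⁻¹' (Set.pi univ fun l => Icc (lo l) (hi l))) := by
    ext x
    simp only [mem_preimage, Set.mem_pi, mem_univ, true_imp_iff]
    refine forall_congr' fun l => ?_
    rw [b.repr_apply_apply]
  rw [h1]
  have hm : MeasurableSet (Set.pi univ fun l => Icc (lo l) (hi l)) :=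
    MeasurableSet.univ_pi fun l => measurableSet_Icc
  have h2 := (PiLp.volume_preserving_ofLp κ)
  rw [(b.measurePreserving_repr).measure_preimage
    ((h2.measurable hm).nullMeasurableSet), h2.measure_preimage hm.nullMeasurableSet,
    volume_pi_pi]
  simp only [Real.volume_Icc]

theorem vol_box {n : ℕ} {κ : Type} [Fintype κ] (b : OrthonormalBasis κ ℝ (E n)) (a : E n)
    (lo hi : κ → ℝ) :
    volume {x : E n | ∀ l, inner ℝ (b l) (x - a) ∈ Icc (lo l) (hi l)} =
      ∏ l, ENNReal.ofReal (hi l - lo l) := by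
  rw [← vol_box0 b lo hi]
  have hm : MeasurableSet {x : E n | ∀ l, inner ℝ (b l) x ∈ Icc (lo l) (hi l)} := by
    apply IsClosed.measurableSet
    have : {x : E n | ∀ l, inner ℝ (b l) x ∈ Icc (lo l) (hi l)} =
        ⋂ l, (fun x : E n => inner ℝ (b l) x) ⁻¹' Icc (lo l) (hi l) := by
      ext x; simp
    rw [this]
    exact isClosed_iInter fun l => isClosed_Icc.preimage (by fun_prop)
  exact (measurePreserving_sub_right volume a).measure_preimage hm.nullMeasurableSet

/-- Extension of an orthonormal family to an orthonormal basis. -/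
theorem extend {n : ℕ} {κ : Type} [Fintype κ] (v : κ → E n) (hv : Orthonormal ℝ v) (m : ℕ)
    (hm : Fintype.card κ + m = n) :
    ∃ b : OrthonormalBasis (κ ⊕ Fin m) ℝ (E n), ∀ l, b (Sum.inl l) = v l := by
  classical
  have hcard : Module.finrank ℝ (E n) = Fintype.card (κ ⊕ Fin m) := by
    rw [Fintype.card_sum, Fintype.card_fin, finrank_euclideanSpace_fin, hm]
  have horth : Orthonormal ℝ ((range (Sum.inl : κ → κ ⊕ Fin m)).domRestrict
      (Sum.elim v (fun _ => (0 : E n)))) := by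
    have he : ∀ x : range (Sum.inl : κ → κ ⊕ Fin m), ∃ y : κ, Sum.inl y = (x : κ ⊕ Fin m) :=
      fun x => x.2
    choose g hg using he
    have hinj : Function.Injective g := by
      intro x y hxy
      apply Subtype.ext
      rw [← hg x, ← hg y, hxy]
    have := hv.comp g hinj
    convert this using 1
    ext1 x
    rw [Set.domRestrict_apply, ← hg x]
    rfl
  obtain ⟨b, hb⟩ := horth.exists_orthonormalBasis_extension_of_card_eq hcard
  refine ⟨b, fun l => ?_⟩
  rw [hb (Sum.inl l) ⟨l, rfl⟩]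
  rfl

theorem vol_slab {n : ℕ} {κ : Type} [Fintype κ] (v : κ → E n) (hv : Orthonormal ℝ v) (m : ℕ)
    (hm : Fintype.card κ + m = n) (a : E n) (R : ℝ) (lo hi : κ → ℝ) :
    volume {x : E n | (∀ l, inner ℝ (v l) (x - a) ∈ Icc (lo l) (hi l)) ∧ ‖x - a‖ ≤ R} ≤
      (∏ l, ENNReal.ofReal (hi l - lo l)) * ENNReal.ofReal (2 * R) ^ m := by
  obtain ⟨b, hb⟩ := extend v hv m hm
  have h1 := vol_box b a (Sum.elim lo fun _ => -R) (Sum.elim hi fun _ => R)
  rw [Fintype.prod_sum_type] at h1
  simp only [Sum.elim_inl, Sum.elim_inr, Finset.prod_const, Finset.card_univ,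
    Fintype.card_fin] at h1
  have e1 : R - -R = 2 * R := by ring
  rw [e1] at h1
  rw [← h1]
  apply measure_mono
  rintro x ⟨hx, hxR⟩
  rintro (l | l)
  · rw [hb]; exact hx l
  · simp only [Sum.elim_inr]
    have h2 : |inner ℝ (b (Sum.inr l)) (x - a)| ≤ R := by
      refine (abs_real_inner_le_norm _ _).trans ?_
      rw [b.norm_eq_one, one_mul]
      exact hxR
    exact abs_le.1 h2

end Pool.Agent.Zk61.KP
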