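import Pool.Agent.Zk61.KP.StepB

set_option autoImplicit false

/-!
# The two estimates and the decomposition into levels
-/

open MeasureTheory Set Metric
open scoped ENNReal

namespace Pool.Agent.Zk61.KP

open Classical in
/-- The points through which at least `P` of the classes send at least `m` tubes. -/
noncomputable def G {n : ℕ} {ι κ : Type} [DecidableEq κ] (T : ι → Set (E n)) (s : Finset ι)
    (c : ι → κ) (m P : ℝ) : Set (E n) :=
  {x | P ≤ (((s.image c).filter fun l =>
        m ≤ (cnt T (s.filter fun i => c i = l) x : ℝ)).card : ℝ)}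

open Classical in
theorem core_b {n d : ℕ} (hn : 1 + d = n) {ι κ : Type} [DecidableEq κ] (a e : ι → E n)
    (s : Finset ι) (c : ι → κ) {δ K m P M : ℝ} (hδ : 0 < δ) (hK : 0 ≤ K) (hm : 1 ≤ m)
    (hP : 0 < P) (hM : 0 < M) (he : ∀ i ∈ s, ‖e i‖ = 1) (u : κ → E n) (g : κ → ℝ)
    (hu : ∀ l ∈ s.image c, ‖u l‖ = 1)
    (hS : ∀ i ∈ s, ∀ x ∈ tube δ (a i) (e i), |inner ℝ (u (c i)) x - g (c i)| ≤ K * δ)
    (hc : ∀ l ∈ s.image c, ∀ φ, δ ≤ φ →
      ((s.filter fun i => |inner ℝ (u l) (e i)| ≤ φ).card : ℝ) * δ ≤ M * φ)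
    (J : ℕ) (hJ : 2 * (s.card : ℝ) ≤ m * P * 2 ^ J) :
    ENNReal.ofReal (m * P ^ 2 / 2) * volume (G (fun i => tube δ (a i) (e i)) s c m P) ≤
      ENNReal.ofReal ((2 * δ) ^ d * (2 * (K + 1)) * ((s.image c).card * (M * (2 + 2 * J)))) := by
  have hm0 : 0 < m := by linarith
  rcases le_or_gt (2 * M) (m * P) with hcase | hcase
  · set φ0 : ℝ := δ * (m * P) / (2 * M) with hφ0
    have hφ : δ ≤ φ0 := by
      rw [hφ0, le_div_iff₀ (by positivity)]
      gcongr
    have hMφ : M * φ0 = (m * P / 2) * δ := by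
      rw [hφ0]; field_simp
    apply step_b hn a e s c hδ hK hm hP he u g hu hS
      (fun l => s.filter fun i => φ0 < |inner ℝ (u l) (e i)|)
    · intro l _; exact Finset.filter_subset _ _
    · intro l hl
      have h1 : (s \ s.filter fun i => φ0 < |inner ℝ (u l) (e i)|) =
          s.filter fun i => |inner ℝ (u l) (e i)| ≤ φ0 := by
        ext i
        simp only [Finset.mem_sdiff, Finset.mem_filter, not_and, not_lt]
        constructor
        · rintro ⟨h2, h3⟩; exact ⟨h2, h3 h2⟩
        · rintro ⟨h2, h3⟩; exact ⟨h2, fun _ => h3⟩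
      rw [h1]
      have h2 := hc l hl φ0 hφ
      rw [hMφ] at h2
      exact le_of_mul_le_mul_right h2 hδ
    · intro l hl
      have h1 := harm_sum s (fun i => |inner ℝ (u l) (e i)|) hδ (hc l hl) J φ0 hφ (by
        rw [← mul_assoc, hMφ]
        nlinarith)
      have h2 : ∑ i ∈ s.filter (fun i => φ0 < |inner ℝ (u l) (e i)|),
          δ / max δ |inner ℝ (u l) (e i)| =
          ∑ i ∈ s.filter (fun i => φ0 < |inner ℝ (u l) (e i)|), δ / |inner ℝ (u l) (e i)| := by
        apply Finset.sum_congr rfl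
        intro i hi
        have := (Finset.mem_filter.1 hi).2
        rw [max_eq_right (by linarith)]
      rw [h2]
      refine h1.trans ?_
      gcongr
      norm_num
  · apply step_b hn a e s c hδ hK hm hP he u g hu hS (fun _ => s)
    · intro l _; exact Finset.Subset.refl _
    · intro l _
      rw [Finset.sdiff_self, Finset.card_empty, Nat.cast_zero]
      positivity
    · intro l hl
      apply harm_sum_all s (fun i => |inner ℝ (u l) (e i)|) hδ (hc l hl) J
      have h2 : m * P * 2 ^ J ≤ 2 * M * 2 ^ J := by gcongr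
      linarith

open Classical in
theorem step_a {n : ℕ} {ι κ : Type} [DecidableEq κ] (T : ι → Set (E n))
    (hT : ∀ i, MeasurableSet (T i)) (s : Finset ι) (c : ι → κ) (m : ℝ) {P : ℝ} :
    ENNReal.ofReal P * volume (G T s c m P) ≤
      ∑ l ∈ s.image c, volume {x | m ≤ (cnt T (s.filter fun i => c i = l) x : ℝ)} := by
  have hm : ∀ l, MeasurableSet {x | m ≤ (cnt T (s.filter fun i => c i = l) x : ℝ)} := fun l =>
    measurableSet_le measurable_const (measurable_cnt T hT _)
  set Q : E n → ℝ≥0∞ := fun x => ∑ l ∈ s.image c,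
    {x | m ≤ (cnt T (s.filter fun i => c i = l) x : ℝ)}.indicator (fun _ => (1 : ℝ≥0∞)) x with hQ
  have hQm : Measurable Q :=
    Finset.measurable_sum _ fun l _ => measurable_const.indicator (hm l)
  rw [← setLIntegral_const]
  refine (setLIntegral_mono hQm ?_).trans ((setLIntegral_le_lintegral _ _).trans ?_)
  · intro x hx
    have hx1 : P ≤ (((s.image c).filter fun l =>
        m ≤ (cnt T (s.filter fun i => c i = l) x : ℝ)).card : ℝ) := hx
    have hQx : Q x = (((s.image c).filter fun l =>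
        m ≤ (cnt T (s.filter fun i => c i = l) x : ℝ)).card : ℝ≥0∞) := by
      rw [hQ]
      simp only
      rw [Finset.card_filter]
      push_cast
      apply Finset.sum_congr rfl
      intro l _
      rw [Set.indicator_apply]
      rfl
    rw [hQx, ← ENNReal.ofReal_natCast]
    exact ENNReal.ofReal_le_ofReal hx1
  · rw [hQ, lintegral_finsetSum _ fun l _ => measurable_const.indicator (hm l)]
    apply le_of_eq
    apply Finset.sum_congr rfl
    intro l _
    rw [lintegral_indicator (hm l), setLIntegral_const, one_mul]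

theorem exists_scale {Λ f : ℝ} (hΛ : f ≤ Λ) (R : ℕ) :
    f ≤ Λ / 2 ^ R ∨ ∃ k < R, Λ / 2 ^ (k + 1) < f ∧ f ≤ Λ / 2 ^ k := by
  induction R with
  | zero => left; simpa using hΛ
  | succ R ih =>
    rcases ih with h | ⟨k, hk, h1, h2⟩
    · rcases le_or_gt f (Λ / 2 ^ (R + 1)) with h3 | h3
      · exact Or.inl h3
      · exact Or.inr ⟨R, by omega, h3, h⟩
    · exact Or.inr ⟨k, by omega, h1, h2⟩

open Classical in
/-- Decomposition into levels. -/
theorem pigeon {n : ℕ} {ι κ : Type} [DecidableEq κ] (T : ι → Set (E n)) (s : Finset ι)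
    (c : ι → κ) {Λ lam : ℝ} (hlam : 0 < lam) (R : ℕ) (hR : 1 ≤ R)
    (hΛ : ∀ l ∈ s.image c, ((s.filter fun i => c i = l).card : ℝ) ≤ Λ)
    (h2 : 2 * ((s.image c).card * Λ) ≤ lam * 2 ^ R) :
    {x : E n | lam ≤ (cnt T s x : ℝ)} ⊆ ⋃ k ∈ Finset.range R,
      G T s c (max 1 (Λ / 2 ^ (k + 1))) (lam / (4 * R * max 1 (Λ / 2 ^ (k + 1)))) := by
  intro x hx
  have hx1 : lam ≤ (cnt T s x : ℝ) := hx
  by_contra hcon
  simp only [mem_iUnion, not_exists, Finset.mem_range] at hcon
  have hR0 : (0 : ℝ) < R := by exact_mod_cast (by omega : 0 < R)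
  set p : ℕ → ℝ := fun k => (((s.image c).filter fun l => max 1 (Λ / 2 ^ (k + 1)) ≤
    (cnt T (s.filter fun i => c i = l) x : ℝ)).card : ℝ) with hp
  have hlt : ∀ k < R, p k < lam / (4 * R * max 1 (Λ / 2 ^ (k + 1))) := by
    intro k hk
    exact not_le.1 (hcon k hk)
  -- pointwise bound for a class
  have hcl : ∀ l ∈ s.image c, (cnt T (s.filter fun i => c i = l) x : ℝ) ≤
      ∑ k ∈ Finset.range R, (Λ / 2 ^ k) * (if max 1 (Λ / 2 ^ (k + 1)) ≤
        (cnt T (s.filter fun i => c i = l) x : ℝ) then 1 else 0) + Λ / 2 ^ R := by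
    intro l hl
    have hΛl := hΛ l hl
    have hΛ0 : 0 ≤ Λ := (Nat.cast_nonneg _).trans hΛl
    have hle : (cnt T (s.filter fun i => c i = l) x : ℝ) ≤ Λ := by
      refine le_trans ?_ hΛl
      unfold cnt
      exact_mod_cast Finset.card_filter_le _ _
    have hnn : ∀ k ∈ Finset.range R, 0 ≤ (Λ / 2 ^ k) * (if max 1 (Λ / 2 ^ (k + 1)) ≤
        (cnt T (s.filter fun i => c i = l) x : ℝ) then (1 : ℝ) else 0) := by
      intro k _
      apply mul_nonneg (by positivity)
      split_ifs <;> norm_num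
    have hsn := Finset.sum_nonneg hnn
    rcases exists_scale hle R with h | ⟨k, hk, h3, h4⟩
    · linarith
    · rcases Nat.eq_zero_or_pos (cnt T (s.filter fun i => c i = l) x) with h0 | h0
      · rw [h0] at hsn ⊢
        have : 0 ≤ Λ / 2 ^ R := by positivity
        push_cast at hsn ⊢
        linarith
      · have h5 : max 1 (Λ / 2 ^ (k + 1)) ≤ (cnt T (s.filter fun i => c i = l) x : ℝ) := by
          apply max_le
          · exact_mod_cast h0
          · exact h3.le
        have h6 := Finset.single_le_sum hnn (Finset.mem_range.2 hk)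
        rw [if_pos h5, mul_one] at h6
        have : 0 ≤ Λ / 2 ^ R := by positivity
        linarith
  have h3 : (cnt T s x : ℝ) ≤ ∑ k ∈ Finset.range R, (Λ / 2 ^ k) * p k +
      (s.image c).card * (Λ / 2 ^ R) := by
    rw [cnt_fiber T s c x]
    push_cast
    refine (Finset.sum_le_sum hcl).trans (le_of_eq ?_)
    rw [Finset.sum_add_distrib, Finset.sum_const, nsmul_eq_mul, Finset.sum_comm]
    congr 1
    apply Finset.sum_congr rfl
    intro k _
    rw [← Finset.mul_sum]
    congr 1
    rw [hp]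
    simp only
    rw [Finset.card_filter]
    push_cast
    rfl
  have h4 : (s.image c).card * (Λ / 2 ^ R) ≤ lam / 2 := by
    rw [mul_div_assoc', div_le_iff₀ (by positivity)]
    linarith
  have h5 : ∑ k ∈ Finset.range R, (Λ / 2 ^ k) * p k < ∑ k ∈ Finset.range R, lam / (2 * R) := by
    apply Finset.sum_lt_sum_of_nonempty
    · exact Finset.nonempty_range_iff.2 (by omega)
    · intro k hk
      have hk' := Finset.mem_range.1 hk
      have h6 := hlt k hk'
      set mm : ℝ := max 1 (Λ / 2 ^ (k + 1)) with hmm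
      have hmm1 : 1 ≤ mm := le_max_left _ _
      have hmm2 : Λ / 2 ^ (k + 1) ≤ mm := le_max_right _ _
      have h7 : Λ / 2 ^ k ≤ 2 * mm := by
        have : Λ / 2 ^ k = 2 * (Λ / 2 ^ (k + 1)) := by
          rw [pow_succ]; field_simp
        rw [this]; linarith
      have hp0 : 0 ≤ p k := by rw [hp]; positivity
      calc Λ / 2 ^ k * p k ≤ 2 * mm * p k := by gcongr
        _ < 2 * mm * (lam / (4 * R * mm)) := by gcongr
        _ = lam / (2 * R) := by field_simp; ring
  have h6 : ∑ k ∈ Finset.range R, lam / (2 * R) = lam / 2 := by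
    rw [Finset.sum_const, Finset.card_range, nsmul_eq_mul]
    field_simp
  rw [h6] at h5
  linarith

end Pool.Agent.Zk61.KP
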