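import Pool.Agent.Zk61.KP.Geo

set_option autoImplicit false

/-!
# Counting separated unit vectors in boxes
-/

open MeasureTheory Set Metric
open scoped ENNReal

namespace Pool.Agent.Zk61.KP

/-- Volume of the unit ball. -/
noncomputable def vb (n : ℕ) : ℝ := (volume (ball (0 : E n) 1)).toReal

theorem vb_pos (n : ℕ) : 0 < vb n := by
  unfold vb
  apply ENNReal.toReal_pos
  · exact (measure_ball_pos _ _ one_pos).ne'
  · exact measure_ball_lt_top.ne

theorem vol_ball {n : ℕ} (y : E n) {r : ℝ} (hr : 0 < r) :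
    volume (ball y r) = ENNReal.ofReal (r ^ n * vb n) := by
  rw [Measure.addHaar_ball_of_pos _ _ hr, finrank_euclideanSpace_fin, ENNReal.ofReal_mul (by positivity),
    vb, ENNReal.ofReal_toReal measure_ball_lt_top.ne]

/-- The constant in the counting lemma. -/
noncomputable def Cc (n : ℕ) : ℝ := 12 ^ n / vb n

theorem Cc_pos (n : ℕ) : 0 < Cc n := by
  have := vb_pos n
  unfold Cc
  positivity

/-- `δ`-separated unit vectors in a box with sides `w l ≥ δ` in orthonormal directions. -/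
theorem count_le {n : ℕ} {κ : Type} [Fintype κ] (v : κ → E n) (hv : Orthonormal ℝ v) (m : ℕ)
    (hm : Fintype.card κ + m = n) (w : κ → ℝ) {δ : ℝ} (hδ : 0 < δ) (hδ1 : δ ≤ 1)
    (hw : ∀ l, δ ≤ w l) {ι : Type} (s : Finset ι) (e : ι → E n) (he : ∀ i ∈ s, ‖e i‖ = 1)
    (hsep : ∀ i ∈ s, ∀ j ∈ s, i ≠ j → δ ≤ ‖e i - e j‖)
    (hbox : ∀ i ∈ s, ∀ l, |inner ℝ (v l) (e i)| ≤ w l) :
    (s.card : ℝ) * δ ^ n ≤ Cc n * (δ * ∏ l, w l) := by
  classical
  set N1 : ℕ := ⌊1 / δ⌋₊ + 1 with hN1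
  have hN1' : 1 / δ ≤ (N1 : ℝ) := by
    rw [hN1]; push_cast; exact (Nat.lt_floor_add_one _).le
  set y : ι × ℕ → E n := fun p => (1 + (p.2 : ℝ) * δ) • e p.1 with hy
  set S : Finset (ι × ℕ) := s ×ˢ Finset.range N1 with hS
  have hk : ∀ p ∈ S, (p.2 : ℝ) * δ ≤ 1 := by
    intro p hp
    rw [hS, Finset.mem_product, Finset.mem_range] at hp
    have h1 : p.2 ≤ ⌊1 / δ⌋₊ := by omega
    have h2 : (p.2 : ℝ) ≤ 1 / δ := (Nat.le_floor_iff (by positivity)).1 h1
    rwa [le_div_iff₀ hδ] at h2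
  have hsepy : ∀ p ∈ S, ∀ p' ∈ S, p ≠ p' → δ ≤ ‖y p - y p'‖ := by
    intro p hp p' hp' hne
    have hp1 := hp
    have hp1' := hp'
    rw [hS, Finset.mem_product] at hp1 hp1'
    have h1 := norm_smul_sub_smul_ge (he _ hp1.1) (he _ hp1'.1)
      (r := 1 + (p.2 : ℝ) * δ) (t := 1 + (p'.2 : ℝ) * δ)
      (by have : 0 ≤ (p.2 : ℝ) * δ := by positivity
          linarith) (by have : 0 ≤ (p'.2 : ℝ) * δ := by positivity
                        linarith)
    have h2 : δ ^ 2 ≤ ‖e p.1 - e p'.1‖ ^ 2 +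
        (1 + (p.2 : ℝ) * δ - (1 + (p'.2 : ℝ) * δ)) ^ 2 := by
      by_cases h3 : p.1 = p'.1
      · have h4 : p.2 ≠ p'.2 := fun h => hne (Prod.ext h3 h)
        have h5 : (1 : ℝ) ≤ ((p.2 : ℝ) - (p'.2 : ℝ)) ^ 2 := by
          have h6 : (1 : ℤ) ≤ ((p.2 : ℤ) - (p'.2 : ℤ)) ^ 2 := by
            have h7 : ((p.2 : ℤ) - (p'.2 : ℤ)) ≠ 0 := by
              intro h; apply h4; omega
            have h8 : 0 < ((p.2 : ℤ) - (p'.2 : ℤ)) ^ 2 := by positivity
            omega
          exact_mod_cast h6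
        have h6 : (1 + (p.2 : ℝ) * δ - (1 + (p'.2 : ℝ) * δ)) ^ 2 =
            ((p.2 : ℝ) - (p'.2 : ℝ)) ^ 2 * δ ^ 2 := by ring
        rw [h6]
        nlinarith [sq_nonneg ‖e p.1 - e p'.1‖, sq_nonneg δ]
      · have h4 := hsep _ hp1.1 _ hp1'.1 h3
        nlinarith [sq_nonneg (1 + (p.2 : ℝ) * δ - (1 + (p'.2 : ℝ) * δ)), norm_nonneg (e p.1 - e p'.1)]
    have h3 : δ ^ 2 ≤ ‖y p - y p'‖ ^ 2 := h2.trans h1
    exact le_of_sq_le_sq h3 (norm_nonneg _)
  have hdisj : (S : Set (ι × ℕ)).PairwiseDisjoint fun p => ball (y p) (δ / 2) := by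
    intro p hp p' hp' hne
    apply ball_disjoint_ball
    rw [dist_eq_norm]
    have := hsepy p hp p' hp' hne
    linarith
  have hsub : (⋃ p ∈ S, ball (y p) (δ / 2)) ⊆
      {x : E n | (∀ l, inner ℝ (v l) (x - 0) ∈ Icc (-(3 * w l)) (3 * w l)) ∧ ‖x - 0‖ ≤ 3} := by
    intro x hx
    simp only [mem_iUnion, exists_prop] at hx
    obtain ⟨p, hp, hxp⟩ := hx
    have hp1 := hp
    rw [hS, Finset.mem_product] at hp1
    have h0 := hk p hp
    have h00 : 0 ≤ (p.2 : ℝ) * δ := by positivity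
    rw [mem_ball, dist_eq_norm] at hxp
    show (∀ l, inner ℝ (v l) (x - 0) ∈ Icc (-(3 * w l)) (3 * w l)) ∧ ‖x - 0‖ ≤ 3
    rw [sub_zero]
    constructor
    · intro l
      apply abs_le.1
      have h1 : inner ℝ (v l) x = inner ℝ (v l) (x - y p) +
          (1 + (p.2 : ℝ) * δ) * inner ℝ (v l) (e p.1) := by
        rw [inner_sub_right, hy]
        simp only [inner_smul_right]
        ring
      have h2 : |inner ℝ (v l) (x - y p)| ≤ δ / 2 := by
        refine (abs_real_inner_le_norm _ _).trans ?_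
        rw [hv.1 l, one_mul]
        exact hxp.le
      have h3 : |(1 + (p.2 : ℝ) * δ) * inner ℝ (v l) (e p.1)| ≤ 2 * w l := by
        rw [abs_mul, abs_of_nonneg (by linarith)]
        exact mul_le_mul (by linarith) (hbox _ hp1.1 l) (abs_nonneg _) (by norm_num)
      rw [h1]
      refine (abs_add_le _ _).trans ?_
      have := hw l
      linarith
    · have h1 : ‖x‖ ≤ ‖x - y p‖ + ‖y p‖ := by
        have := norm_add_le (x - y p) (y p)
        rwa [sub_add_cancel] at this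
      have h2 : ‖y p‖ ≤ 2 := by
        rw [hy]
        simp only
        rw [norm_smul, he _ hp1.1, mul_one, Real.norm_eq_abs, abs_of_nonneg (by linarith)]
        linarith
      linarith
  have h1 := measure_mono (μ := volume) hsub
  rw [measure_biUnion_finset hdisj fun p _ => measurableSet_ball] at h1
  have h2 := h1.trans (vol_slab v hv m hm 0 3 _ _)
  have h3 : ∑ p ∈ S, volume (ball (y p) (δ / 2)) =
      ENNReal.ofReal ((S.card : ℝ) * ((δ / 2) ^ n * vb n)) := by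
    rw [Finset.sum_congr rfl fun p _ => vol_ball (y p) (by positivity : 0 < δ / 2),
      Finset.sum_const, nsmul_eq_mul, ENNReal.ofReal_mul (Nat.cast_nonneg _),
      ENNReal.ofReal_natCast]
  have hw0 : ∀ l, 0 ≤ w l := fun l => hδ.le.trans (hw l)
  have h4 : (∏ l, ENNReal.ofReal (3 * w l - -(3 * w l))) * ENNReal.ofReal (2 * 3) ^ m =
      ENNReal.ofReal (6 ^ n * ∏ l, w l) := by
    rw [← ENNReal.ofReal_pow (by norm_num), ← ENNReal.ofReal_prod_of_nonneg
      (fun l _ => by have := hw0 l; linarith),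
      ← ENNReal.ofReal_mul (Finset.prod_nonneg fun l _ => by have := hw0 l; linarith)]
    congr 1
    have e1 : ∀ l, 3 * w l - -(3 * w l) = 6 * w l := fun l => by ring
    simp only [e1, Finset.prod_mul_distrib, Finset.prod_const, Finset.card_univ]
    rw [← hm, pow_add]
    ring
  rw [h3, h4] at h2
  have hP0 : 0 ≤ ∏ l, w l := Finset.prod_nonneg fun l _ => hw0 l
  rw [ENNReal.ofReal_le_ofReal_iff (by positivity)] at h2
  have h5 : (S.card : ℝ) = (s.card : ℝ) * N1 := by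
    rw [hS, Finset.card_product, Finset.card_range]; push_cast; ring
  rw [h5] at h2
  have hvb := vb_pos n
  have h6 : (s.card : ℝ) * (1 / δ) * ((δ / 2) ^ n * vb n) ≤ 6 ^ n * ∏ l, w l := by
    refine le_trans ?_ h2
    gcongr
  unfold Cc
  have h7 : (s.card : ℝ) * (1 / δ) * ((δ / 2) ^ n * vb n) =
      (s.card : ℝ) * δ ^ n * (vb n / (δ * 2 ^ n)) := by
    rw [div_pow]; field_simp
  rw [h7] at h6
  rw [← le_div_iff₀ (by positivity)] at h6
  refine h6.trans (le_of_eq ?_)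
  have e12 : (12 : ℝ) ^ n = 6 ^ n * 2 ^ n := by rw [← mul_pow]; norm_num
  rw [e12]
  field_simp

end Pool.Agent.Zk61.KP
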