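import Pool.Agent.Zk61.KP.Box

set_option autoImplicit false

/-!
# The part of a tube in a slab; counting separated directions
-/

open MeasureTheory Set Metric
open scoped ENNReal

namespace Pool.Agent.Zk61.KP

theorem isClosed_tube {n : ℕ} (δ : ℝ) (a e : E n) : IsClosed (tube δ a e) := by
  have h1 : IsClosed {y : E n | |inner ℝ (y - a) e| ≤ 1 / 2} :=
    isClosed_le (by fun_prop) continuous_const
  have h2 : IsClosed {y : E n | ‖(y - a) - (inner ℝ (y - a) e) • e‖ ≤ δ} :=
    isClosed_le (by fun_prop) continuous_const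
  exact h1.inter h2

theorem measurableSet_tube {n : ℕ} (δ : ℝ) (a e : E n) : MeasurableSet (tube δ a e) :=
  (isClosed_tube δ a e).measurableSet

theorem inner_perp {n : ℕ} {b e z : E n} (hb : ‖b‖ = 1) (hbe : inner ℝ b e = 0) {δ : ℝ}
    (hz : ‖z - (inner ℝ z e) • e‖ ≤ δ) : |inner ℝ b z| ≤ δ := by
  have h1 : inner ℝ b z = inner ℝ b (z - (inner ℝ z e) • e) := by
    rw [inner_sub_right, inner_smul_right, hbe, mul_zero, sub_zero]
  rw [h1]
  refine (abs_real_inner_le_norm _ _).trans ?_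
  rw [hb, one_mul]
  exact hz

/-- Volume of the part of a tube with `⟪e, x - a⟫` in an interval. -/
theorem vol_tube_part {n m : ℕ} (hn : 1 + m = n) {δ : ℝ} {a e : E n} (he : ‖e‖ = 1)
    (lo hi : ℝ) :
    volume (tube δ a e ∩ {x | inner ℝ e (x - a) ∈ Icc lo hi}) ≤
      ENNReal.ofReal (hi - lo) * ENNReal.ofReal (2 * δ) ^ m := by
  have horth : Orthonormal ℝ (fun _ : Unit => e) := by
    constructor
    · intro _; exact he
    · intro i j hij; exact absurd (Subsingleton.elim i j) hij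
  obtain ⟨b, hb⟩ := extend (fun _ : Unit => e) horth m (by simpa using hn)
  have h1 := vol_box b a (Sum.elim (fun _ => lo) fun _ => -δ) (Sum.elim (fun _ => hi) fun _ => δ)
  rw [Fintype.prod_sum_type] at h1
  simp only [Sum.elim_inl, Sum.elim_inr, Finset.prod_const, Finset.card_univ,
    Fintype.card_fin, Fintype.card_unit, pow_one] at h1
  have e1 : δ - -δ = 2 * δ := by ring
  rw [e1] at h1
  rw [← h1]
  apply measure_mono
  rintro x ⟨hx, hxI⟩
  rintro (l | l)
  · rw [hb]; exact hxI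
  · simp only [Sum.elim_inr]
    apply abs_le.1
    refine inner_perp (b.norm_eq_one _) ?_ hx.2
    have h2 : inner ℝ (b (Sum.inr l)) (b (Sum.inl ())) = 0 := b.orthonormal.2 (by simp)
    rw [hb] at h2
    exact h2

theorem vol_tube {n m : ℕ} (hn : 1 + m = n) {δ : ℝ} (hδ : 0 ≤ δ) {a e : E n} (he : ‖e‖ = 1) :
    volume (tube δ a e) ≤ ENNReal.ofReal ((2 * δ) ^ m) := by
  have h1 := vol_tube_part hn (δ := δ) (a := a) he (-(1/2)) (1/2)
  have h2 : tube δ a e ∩ {x | inner ℝ e (x - a) ∈ Icc (-(1/2)) (1/2)} = tube δ a e := by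
    apply inter_eq_left.2
    intro x hx
    have := hx.1
    rw [real_inner_comm] at this
    exact abs_le.1 this
  rw [h2] at h1
  refine h1.trans (le_of_eq ?_)
  rw [ENNReal.ofReal_pow (by positivity : (0 : ℝ) ≤ 2 * δ)]
  norm_num

theorem vol_tube_slab {n m : ℕ} (hn : 1 + m = n) {δ κ g : ℝ} (hδ : 0 ≤ δ) (hκ : 0 ≤ κ)
    {a e u : E n} (he : ‖e‖ = 1) (hu : ‖u‖ = 1) (hh : 0 < |inner ℝ u e|) :
    volume (tube δ a e ∩ {x | |inner ℝ u x - g| ≤ κ}) ≤
      ENNReal.ofReal ((2 * δ) ^ m * min 1 (2 * (κ + δ) / |inner ℝ u e|)) := by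
  rcases le_total 1 (2 * (κ + δ) / |inner ℝ u e|) with h1 | h1
  · rw [min_eq_left h1, mul_one]
    exact (measure_mono inter_subset_left).trans (vol_tube hn hδ he)
  · rw [min_eq_right h1]
    set h : ℝ := inner ℝ u e with hh'
    have hh0 : h ≠ 0 := abs_pos.1 hh
    have h2 := vol_tube_part hn (δ := δ) (a := a) he ((g - inner ℝ u a) / h - (κ + δ) / |h|)
      ((g - inner ℝ u a) / h + (κ + δ) / |h|)
    have e1 : (g - inner ℝ u a) / h + (κ + δ) / |h| - ((g - inner ℝ u a) / h - (κ + δ) / |h|) =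
        2 * (κ + δ) / |h| := by ring
    rw [e1] at h2
    have h3 : tube δ a e ∩ {x | |inner ℝ u x - g| ≤ κ} ⊆ tube δ a e ∩
        {x | inner ℝ e (x - a) ∈ Icc ((g - inner ℝ u a) / h - (κ + δ) / |h|)
          ((g - inner ℝ u a) / h + (κ + δ) / |h|)} := by
      rintro x ⟨hx, hxs⟩
      refine ⟨hx, ?_⟩
      have h4 : |inner ℝ u ((x - a) - (inner ℝ (x - a) e) • e)| ≤ δ := by
        refine (abs_real_inner_le_norm _ _).trans ?_
        rw [hu, one_mul]
        exact hx.2
      rw [inner_sub_right, inner_smul_right, inner_sub_right, ← hh'] at h4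
      have h5 : |inner ℝ e (x - a) * h - (g - inner ℝ u a)| ≤ κ + δ := by
        have h6 : inner ℝ e (x - a) * h - (g - inner ℝ u a) =
            (inner ℝ u x - g) - (inner ℝ u x - inner ℝ u a - inner ℝ (x - a) e * h) := by
          rw [real_inner_comm e (x - a)]; ring
        rw [h6]
        refine (abs_sub _ _).trans ?_
        exact add_le_add hxs h4
      have h7 : |inner ℝ e (x - a) - (g - inner ℝ u a) / h| ≤ (κ + δ) / |h| := by
        rw [le_div_iff₀ hh, ← abs_mul, sub_mul, div_mul_cancel₀ _ hh0]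
        exact h5
      have h8 := abs_le.1 h7
      exact ⟨by linarith [h8.1], by linarith [h8.2]⟩
    refine (measure_mono h3).trans (h2.trans (le_of_eq ?_))
    rw [← ENNReal.ofReal_pow (by positivity : (0 : ℝ) ≤ 2 * δ),
      ← ENNReal.ofReal_mul (by positivity), mul_comm]

/-- The sphere points `e i` multiplied by `r ≥ 1` stay separated. -/
theorem norm_smul_sub_smul_ge {n : ℕ} {e f : E n} (he : ‖e‖ = 1) (hf : ‖f‖ = 1) {r t : ℝ}
    (hr : 1 ≤ r) (ht : 1 ≤ t) : ‖e - f‖ ^ 2 + (r - t) ^ 2 ≤ ‖r • e - t • f‖ ^ 2 := by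
  have h1 : ‖e - f‖ ^ 2 = 2 - 2 * inner ℝ e f := by
    rw [norm_sub_sq_real, he, hf]; ring
  have h2 : ‖r • e - t • f‖ ^ 2 = r ^ 2 + t ^ 2 - 2 * (r * t) * inner ℝ e f := by
    rw [norm_sub_sq_real, norm_smul, norm_smul, he, hf, inner_smul_left, inner_smul_right,
      mul_one, mul_one, Real.norm_eq_abs, Real.norm_eq_abs, sq_abs, sq_abs]
    simp only [conj_trivial]
    ring
  have h3 : inner ℝ e f ≤ 1 := by
    have := real_inner_le_norm e f
    rw [he, hf] at this
    linarith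
  rw [h1, h2]
  have h4 : 0 ≤ (r * t - 1) * (1 - inner ℝ e f) := by
    apply mul_nonneg
    · nlinarith
    · linarith
  nlinarith

end Pool.Agent.Zk61.KP
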