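import Pool.Agent.Zk61.KP.Induct

set_option autoImplicit false

/-!
# The strong type estimate for layered families
-/

open MeasureTheory Set Metric
open scoped ENNReal

namespace Pool.Agent.Zk61.KP

theorem lint_pow {A γ N : ℝ} (hA : 0 ≤ A) (hγ : 0 < γ) (hN : 0 ≤ N) :
    ∫⁻ t in Ioc 0 N, ENNReal.ofReal (A * t ^ (γ - 1)) = ENNReal.ofReal (A * (N ^ γ / γ)) := by
  rw [← ofReal_integral_eq_lintegral_ofReal]
  · rw [integral_const_mul, ← intervalIntegral.integral_of_le hN, integral_rpow (Or.inl (by linarith)),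
      Real.zero_rpow (by linarith), sub_zero, sub_add_cancel]
  · have h1 := (intervalIntegral.intervalIntegrable_rpow' (a := 0) (b := N) (r := γ - 1)
      (by linarith)).1
    exact h1.const_mul A
  · refine (ae_restrict_mem measurableSet_Ioc).mono fun t ht => ?_
    have : 0 < t := ht.1
    show (0 : ℝ) ≤ A * t ^ (γ - 1)
    positivity

/-- From the weak type estimate to the `q`-th powers. -/
theorem strong {n : ℕ} {f : E n → ℝ} (hf : Measurable f) (hf0 : ∀ x, 0 ≤ f x) {N q γ A : ℝ}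
    (hN : 0 ≤ N) (hq : 0 < q) (hγ : 0 < γ) (hA : 0 ≤ A) (hfN : ∀ x, f x ≤ N)
    (hw : ∀ t : ℝ, 0 < t → t ≤ N → volume {x | t ≤ f x} ≤ ENNReal.ofReal (A * t ^ (γ - q))) :
    ∫⁻ x, ENNReal.ofReal (f x ^ q) ≤ ENNReal.ofReal (q * (A * (N ^ γ / γ))) := by
  rw [lintegral_rpow_eq_lintegral_meas_le_mul volume (ae_of_all _ hf0) hf.aemeasurable hq,
    ENNReal.ofReal_mul hq.le, ← lint_pow hA hγ hN]
  apply mul_le_mul' le_rfl
  rw [← lintegral_indicator measurableSet_Ioi, ← lintegral_indicator measurableSet_Ioc]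
  apply lintegral_mono
  intro t
  by_cases ht : t ∈ Ioi (0 : ℝ)
  · rw [indicator_of_mem ht]
    have ht0 : 0 < t := ht
    rcases le_or_gt t N with h | h
    · rw [indicator_of_mem (show t ∈ Ioc 0 N from ⟨ht0, h⟩)]
      calc volume {a | t ≤ f a} * ENNReal.ofReal (t ^ (q - 1))
          ≤ ENNReal.ofReal (A * t ^ (γ - q)) * ENNReal.ofReal (t ^ (q - 1)) := by
            gcongr
            exact hw t ht0 h
        _ = ENNReal.ofReal (A * t ^ (γ - 1)) := by
            rw [← ENNReal.ofReal_mul (by positivity), mul_assoc, ← Real.rpow_add ht0]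
            congr 3
            ring
    · have h1 : {a | t ≤ f a} = ∅ := by
        rw [Set.eq_empty_iff_forall_notMem]
        intro x hx
        have hx1 : t ≤ f x := hx
        have := hfN x
        linarith
      rw [h1, measure_empty, zero_mul]
      exact zero_le
  · rw [indicator_of_notMem ht]
    exact zero_le

open Classical in
/-- The strong type estimate. -/
theorem main_q {n : ℕ} (hn : 3 ≤ n) {q τ K : ℝ} (hq : (n : ℝ) / ((n : ℝ) - 1) < q)
    (hτ : ((n : ℝ) - 2) / (((n : ℝ) - 1) * q) < τ) (hK : 1 ≤ K) :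
    ∃ C : ℝ, 0 < C ∧ ∀ δ : ℝ, 0 < δ → δ ≤ 1 → ∀ D : ℝ, 1 ≤ D → ∀ (ι : Type) (s : Finset ι)
      (a e : ι → E n), (∀ i ∈ s, ‖e i‖ = 1) → (∀ i ∈ s, ∀ j ∈ s, i ≠ j → δ ≤ ‖e i - e j‖) →
      Lay K D δ (fun i => tube δ (a i) (e i)) (n - 2) ⊤ s →
      ∫⁻ x, ENNReal.ofReal ((cnt (fun i => tube δ (a i) (e i)) s x : ℝ) ^ q) ≤
        ENNReal.ofReal (C * D ^ (τ * q) * δ ^ (n - 1) * (s.card : ℝ) ^ (q - 1 / ((n : ℝ) - 1))) := by
  have hnr : (3 : ℝ) ≤ n := by exact_mod_cast hn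
  obtain ⟨r, rfl⟩ : ∃ r, n = r + 2 := ⟨n - 2, by omega⟩
  have hr1 : 1 ≤ r := by omega
  have hr0 : (0 : ℝ) < r := by exact_mod_cast hr1
  have e1 : ((r + 2 : ℕ) : ℝ) = r + 2 := by push_cast; ring
  have e2 : ((r + 2 : ℕ) : ℝ) - 1 = r + 1 := by rw [e1]; ring
  have e3 : ((r + 2 : ℕ) : ℝ) - 2 = r := by rw [e1]; ring
  rw [e2] at hq ⊢
  rw [e2, e3] at hτ
  rw [e1] at hq
  have e4 : r + 2 - 2 = r := by omega
  have e5 : r + 2 - 1 = r + 1 := by omega
  rw [e4, e5]
  have hq0 : 0 < q := lt_trans (by positivity) hq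
  set g0 : ℝ := q - (r + 2) / (r + 1) with hg0
  have hg0' : 0 < g0 := by rw [hg0]; linarith
  set h0 : ℝ := τ * q - r / (r + 1) with hh0
  have hh0' : 0 < h0 := by
    rw [div_lt_iff₀ (by positivity)] at hτ
    rw [hh0, sub_pos, div_lt_iff₀ (by positivity)]
    linarith
  set ε : ℝ := min 1 (min (g0 / 2) h0) with hε
  have hε0 : 0 < ε := lt_min one_pos (lt_min (by positivity) hh0')
  have hε1 : ε ≤ 1 := min_le_left _ _
  have hεg : ε ≤ g0 / 2 := (min_le_right _ _).trans (min_le_left _ _)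
  have hεh : ε ≤ h0 := (min_le_right _ _).trans (min_le_right _ _)
  obtain ⟨C, hC, hB⟩ := main (n := r + 2) (d := r + 1) (by omega) hK r ε hε0 hε1
  have hr1' : (0 : ℝ) < (r : ℝ) + 1 := by positivity
  set γ : ℝ := g0 - ε / (r + 1) with hγ
  have hγ0 : 0 < γ := by
    have : ε / (r + 1) ≤ ε := div_le_self hε0.le (by linarith)
    rw [hγ]; linarith
  set C' : ℝ := C ^ ((1 : ℝ) / (r + 1)) with hC'
  have hC'0 : 0 < C' := by positivity
  refine ⟨q * (C' / γ), by positivity, ?_⟩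
  intro δ hδ hδ1 D hD ι s a e he hsep hLay
  set T : ι → Set (E (r + 2)) := fun i => tube δ (a i) (e i) with hT
  have hTm : ∀ i, MeasurableSet (T i) := fun i => measurableSet_tube _ _ _
  have hD0 : 0 < D := by linarith
  rcases s.eq_empty_or_nonempty with hs | hs
  · subst hs
    have h1 : ∀ x, (cnt T ∅ x : ℝ) = 0 := by
      intro x; unfold cnt; simp
    simp only [h1, Real.zero_rpow hq0.ne']
    simp
  have hN1 : (1 : ℝ) ≤ s.card := by exact_mod_cast hs.card_pos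
  have hN0 : (0 : ℝ) < s.card := by linarith
  set A : ℝ := C' * (δ ^ (r + 1) * s.card) * D ^ ((r : ℝ) / (r + 1)) *
    (D ^ r * (s.card : ℝ)) ^ (ε / (r + 1)) with hA
  have hA0 : 0 ≤ A := by positivity
  -- weak type, `1 ≤ t`
  have hw1 : ∀ t : ℝ, 1 ≤ t → t ≤ s.card →
      volume.real {x | t ≤ (cnt T s x : ℝ)} ≤ A * t ^ (γ - q) := by
    intro t ht htN
    have ht0 : 0 < t := by linarith
    have h1 := hB ι a e s ⊤ δ D t hδ hδ1 hD he hsep hLay ht htN
    have h2 : (A * t ^ (γ - q)) ^ (r + 1) = C * (δ ^ (r + 1) * s.card) ^ (r + 1) * D ^ r *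
        (D ^ r * (s.card : ℝ) / t) ^ ε / t ^ (r + 2) := by
      have hp : ∀ x : ℝ, 0 ≤ x → ∀ y : ℝ, (x ^ y) ^ (r + 1) = x ^ (y * (r + 1)) := by
        intro x hx y
        rw [← Real.rpow_natCast, ← Real.rpow_mul hx]
        push_cast
        rfl
      rw [hA, hC']
      rw [mul_pow, mul_pow, mul_pow, mul_pow, hp C hC.le, hp D hD0.le, hp _ (by positivity),
        hp t ht0.le]
      have e6 : (1 : ℝ) / (r + 1) * (r + 1) = 1 := by field_simp
      have e7 : (r : ℝ) / (r + 1) * (r + 1) = r := by field_simp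
      have e8 : ε / ((r : ℝ) + 1) * (r + 1) = ε := by field_simp
      have e9 : (γ - q) * (r + 1) = -(ε + ((r + 2 : ℕ) : ℝ)) := by
        rw [hγ, hg0]; push_cast; field_simp; ring
      rw [e6, e7, e8, e9, Real.rpow_one, Real.rpow_natCast, Real.rpow_neg ht0.le,
        Real.rpow_add ht0, Real.rpow_natCast, Real.div_rpow (by positivity) ht0.le]
      field_simp
    rw [← le_div_iff₀ (by positivity), ← h2] at h1
    exact le_of_pow_le_pow_left₀ (by omega) (by positivity) h1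
  have hfin : volume {x | (1 : ℝ) ≤ (cnt T s x : ℝ)} ≠ ∞ :=
    finite_level (d := r + 1) (by omega) a e s hδ.le he one_pos
  have hw : ∀ t : ℝ, 0 < t → t ≤ s.card →
      volume {x | t ≤ (cnt T s x : ℝ)} ≤ ENNReal.ofReal (A * t ^ (γ - q)) := by
    intro t ht htN
    rcases le_or_gt 1 t with h | h
    · have h1 : volume {x | t ≤ (cnt T s x : ℝ)} ≠ ∞ :=
        finite_level (d := r + 1) (by omega) a e s hδ.le he ht
      rw [← ENNReal.ofReal_toReal h1]
      exact ENNReal.ofReal_le_ofReal (hw1 t h htN)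
    · have h1 : {x | t ≤ (cnt T s x : ℝ)} = {x | (1 : ℝ) ≤ (cnt T s x : ℝ)} := by
        ext x
        show t ≤ (cnt T s x : ℝ) ↔ (1 : ℝ) ≤ (cnt T s x : ℝ)
        constructor
        · intro h2
          have h3 : (0 : ℝ) < (cnt T s x : ℝ) := by linarith
          have h4 : 0 < cnt T s x := by exact_mod_cast h3
          exact_mod_cast h4
        · intro h2; linarith
      rw [h1, ← ENNReal.ofReal_toReal hfin]
      apply ENNReal.ofReal_le_ofReal
      refine (hw1 1 le_rfl hN1).trans ?_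
      rw [Real.one_rpow]
      gcongr
      rw [← Real.one_rpow (γ - q)]
      apply Real.rpow_le_rpow_of_nonpos ht h.le
      rw [hγ, hg0]
      have h5 : 0 < ε / ((r : ℝ) + 1) := by positivity
      have h6 : 0 < ((r : ℝ) + 2) / (r + 1) := by positivity
      linarith
  have h1 := strong (measurable_cnt T hTm s) (fun x => Nat.cast_nonneg _) (N := s.card) hN0.le hq0
    hγ0 hA0 (fun x => by exact_mod_cast cnt_le_card T s x) hw
  refine h1.trans (ENNReal.ofReal_le_ofReal ?_)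
  -- final arithmetic
  have h2 : A * ((s.card : ℝ) ^ γ / γ) = C' / γ * δ ^ (r + 1) *
      (D ^ ((r : ℝ) / (r + 1)) * (D ^ r) ^ (ε / (r + 1))) *
      ((s.card : ℝ) * (s.card : ℝ) ^ (ε / (r + 1)) * (s.card : ℝ) ^ γ) := by
    rw [hA, Real.mul_rpow (by positivity) hN0.le]; ring
  have h3 : (s.card : ℝ) * (s.card : ℝ) ^ (ε / (r + 1)) * (s.card : ℝ) ^ γ =
      (s.card : ℝ) ^ (q - 1 / ((r : ℝ) + 1)) := by
    nth_rewrite 1 [← Real.rpow_one (s.card : ℝ)]
    rw [← Real.rpow_add hN0, ← Real.rpow_add hN0]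
    congr 1
    rw [hγ, hg0]
    field_simp
    ring
  have h4 : D ^ ((r : ℝ) / (r + 1)) * (D ^ r) ^ (ε / (r + 1)) ≤ D ^ (τ * q) := by
    rw [← Real.rpow_natCast D r, ← Real.rpow_mul hD0.le, ← Real.rpow_add hD0]
    apply Real.rpow_le_rpow_of_exponent_le hD
    have h5 : (r : ℝ) * (ε / (r + 1)) ≤ ε := by
      rw [mul_div_assoc', div_le_iff₀ hr1']
      nlinarith
    have h6 : τ * q = h0 + r / (r + 1) := by rw [hh0]; ring
    rw [h6]
    linarith
  rw [h2, h3]
  calc q * (C' / γ * δ ^ (r + 1) * (D ^ ((r : ℝ) / (r + 1)) * (D ^ r) ^ (ε / (r + 1))) *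
        (s.card : ℝ) ^ (q - 1 / ((r : ℝ) + 1)))
      ≤ q * (C' / γ * δ ^ (r + 1) * (D ^ (τ * q)) * (s.card : ℝ) ^ (q - 1 / ((r : ℝ) + 1))) := by
        gcongr
    _ = _ := by ring

end Pool.Agent.Zk61.KP
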