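import Pool.Agent.Zk61.KP.Core

set_option autoImplicit false

/-!
# Tubes near affine subspaces
-/

open MeasureTheory Set Metric
open scoped ENNReal

namespace Pool.Agent.Zk61.KP

open Classical in
/-- Layered families of tubes: `Lay K D δ T 0 V s` says that `V` is a plane whose `K δ`-neighbourhood
contains the tubes; `Lay K D δ T (r + 1) V s` says that `V` has dimension `r + 3` and that `s` is
divided into at most `D δ ^ (r + 1) #s` classes, each of which is a layered family in a subspace of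
`V` of dimension `r + 2`. -/
def Lay {n : ℕ} {ι : Type} (K D δ : ℝ) (T : ι → Set (E n)) :
    ℕ → AffineSubspace ℝ (E n) → Finset ι → Prop
  | 0, V, s => Module.finrank ℝ V.direction = 2 ∧
      ∀ i ∈ s, T i ⊆ cthickening (K * δ) (V : Set (E n))
  | (r + 1), V, s => Module.finrank ℝ V.direction = r + 3 ∧
      ∃ c : ι → ℕ, ((s.image c).card : ℝ) ≤ D * δ ^ (r + 1) * s.card ∧
        ∀ l ∈ s.image c, ∃ V' ≤ V, Lay K D δ T r V' (s.filter fun i => c i = l)

theorem Lay.finrank {n : ℕ} {ι : Type} {K D δ : ℝ} {T : ι → Set (E n)} {r : ℕ}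
    {V : AffineSubspace ℝ (E n)} {s : Finset ι} (h : Lay K D δ T r V s) :
    Module.finrank ℝ V.direction = r + 2 := by
  cases r with
  | zero => exact h.1
  | succ r => exact h.1

theorem Lay.subset {n : ℕ} {ι : Type} {K D δ : ℝ} {T : ι → Set (E n)} {r : ℕ} :
    ∀ {V : AffineSubspace ℝ (E n)} {s : Finset ι}, Lay K D δ T r V s →
    ∀ i ∈ s, T i ⊆ cthickening (K * δ) (V : Set (E n)) := by
  classical
  induction r with
  | zero => intro V s h; exact h.2
  | succ r ih =>
    intro V s h i hi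
    obtain ⟨_, c, _, h3⟩ := h
    obtain ⟨V', hV', h4⟩ := h3 (c i) (Finset.mem_image_of_mem _ hi)
    have h5 := ih h4 i (by rw [Finset.mem_filter]; exact ⟨hi, rfl⟩)
    exact h5.trans (cthickening_subset_of_subset _ (fun x hx => hV' hx))

theorem nonempty_of_finrank {n : ℕ} {V : AffineSubspace ℝ (E n)}
    (h : 0 < Module.finrank ℝ V.direction) : (V : Set (E n)).Nonempty := by
  rw [AffineSubspace.nonempty_iff_ne_bot]
  rintro rfl
  rw [AffineSubspace.direction_bot, finrank_bot] at h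
  exact lt_irrefl _ h

theorem near {n : ℕ} {V : AffineSubspace ℝ (E n)} {κ : ℝ} (hκ : 0 ≤ κ) {v x0 x : E n}
    (hv : ‖v‖ = 1) (hV : ∀ w ∈ V.direction, inner ℝ v w = 0) (hx0 : x0 ∈ V)
    (hx : x ∈ cthickening κ (V : Set (E n))) : |inner ℝ v x - inner ℝ v x0| ≤ κ := by
  have hcl : IsClosed (V : Set (E n)) := V.closed_of_finiteDimensional
  rw [hcl.cthickening_eq_biUnion_closedBall hκ] at hx
  simp only [mem_iUnion, mem_closedBall, exists_prop] at hx
  obtain ⟨y, hy, hxy⟩ := hx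
  have h1 : y - x0 ∈ V.direction := AffineSubspace.vsub_mem_direction hy hx0
  have h2 := hV _ h1
  rw [inner_sub_right] at h2
  have h3 : inner ℝ v x - inner ℝ v x0 = inner ℝ v (x - y) := by
    rw [inner_sub_right]; linarith
  rw [h3]
  refine (abs_real_inner_le_norm _ _).trans ?_
  rw [hv, one_mul, ← dist_eq_norm]
  exact hxy

theorem dir_near {n : ℕ} {V : AffineSubspace ℝ (E n)} {κ δ : ℝ} (hκ : 0 ≤ κ) (hδ : 0 ≤ δ)
    {v a e : E n} (hv : ‖v‖ = 1) (hV : ∀ w ∈ V.direction, inner ℝ v w = 0)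
    (hne : (V : Set (E n)).Nonempty) (he : ‖e‖ = 1)
    (hT : tube δ a e ⊆ cthickening κ (V : Set (E n))) : |inner ℝ v e| ≤ 2 * κ := by
  obtain ⟨x0, hx0⟩ := hne
  have hee : inner ℝ e e = (1 : ℝ) := by rw [real_inner_self_eq_norm_sq, he]; norm_num
  have hmem : ∀ t : ℝ, |t| ≤ 1 / 2 → a + t • e ∈ tube δ a e := by
    intro t ht
    have h1 : inner ℝ (a + t • e - a) e = t := by
      rw [add_sub_cancel_left, inner_smul_left, hee]; simp
    refine ⟨?_, ?_⟩
    · rw [h1]; exact ht
    · rw [h1, add_sub_cancel_left, sub_self, norm_zero]; exact hδ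
  have h1 := near hκ hv hV hx0 (hT (hmem (1 / 2) (by norm_num)))
  have h2 := near hκ hv hV hx0 (hT (hmem (-(1 / 2)) (by norm_num)))
  rw [inner_add_right, inner_smul_right] at h1 h2
  have h3 := abs_le.1 h1
  have h4 := abs_le.1 h2
  apply abs_le.2
  constructor <;> linarith [h3.1, h3.2, h4.1, h4.2]

/-- A unit vector of `V` orthogonal to a smaller subspace. -/
theorem exists_unit {n : ℕ} {W' W : Submodule ℝ (E n)} (h : W' ≤ W)
    (hlt : Module.finrank ℝ W' < Module.finrank ℝ W) :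
    ∃ u ∈ W, ‖u‖ = 1 ∧ ∀ w ∈ W', inner ℝ u w = 0 := by
  have h1 := Submodule.finrank_add_inf_finrank_orthogonal h
  have h2 : 0 < Module.finrank ℝ (W'ᗮ ⊓ W : Submodule ℝ (E n)) := by omega
  have h3 : (W'ᗮ ⊓ W : Submodule ℝ (E n)) ≠ ⊥ := by
    intro h4; rw [h4, finrank_bot] at h2; exact lt_irrefl _ h2
  obtain ⟨x, hx, hx0⟩ := Submodule.exists_mem_ne_zero_of_ne_bot h3
  have hx1 : x ∈ W'ᗮ := hx.1
  have hx2 : x ∈ W := hx.2
  have hn : ‖x‖ ≠ 0 := norm_ne_zero_iff.2 hx0
  refine ⟨‖x‖⁻¹ • x, W.smul_mem _ hx2, ?_, ?_⟩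
  · rw [norm_smul, norm_inv, norm_norm, inv_mul_cancel₀ hn]
  · intro w hw
    have := (Submodule.mem_orthogonal' W' x).1 hx1 w hw
    rw [inner_smul_left, this, mul_zero]

/-- A unit vector of `W` orthogonal to a given vector. -/
theorem exists_unit_perp {n : ℕ} {W : Submodule ℝ (E n)} (h : 2 ≤ Module.finrank ℝ W) (e : E n) :
    ∃ u ∈ W, ‖u‖ = 1 ∧ inner ℝ u e = 0 := by
  set f : W →ₗ[ℝ] ℝ := (innerₛₗ ℝ e).comp W.subtype with hf
  have h1 : LinearMap.ker f ≠ ⊥ := by
    apply LinearMap.ker_ne_bot_of_finrank_lt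
    rw [Module.finrank_self]
    omega
  obtain ⟨x, hx, hx0⟩ := Submodule.exists_mem_ne_zero_of_ne_bot h1
  have hx1 : inner ℝ e (x : E n) = 0 := hx
  have hn : ‖(x : E n)‖ ≠ 0 := by
    rw [norm_ne_zero_iff]
    intro h2; exact hx0 (Subtype.ext h2)
  refine ⟨‖(x : E n)‖⁻¹ • (x : E n), W.smul_mem _ x.2, ?_, ?_⟩
  · rw [norm_smul, norm_inv, norm_norm, inv_mul_cancel₀ hn]
  · rw [inner_smul_left, real_inner_comm, hx1, mul_zero]

open Classical in
/-- Counting the separated directions near a subspace which are almost orthogonal to `u`. -/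
theorem count_node {n q : ℕ} {V : AffineSubspace ℝ (E n)}
    (hV : Module.finrank ℝ V.direction = q + 1) {ι : Type} (s : Finset ι) (a e : ι → E n)
    {δ K : ℝ} (hδ : 0 < δ) (hδ1 : δ ≤ 1) (hK : 1 ≤ K) (he : ∀ i ∈ s, ‖e i‖ = 1)
    (hsep : ∀ i ∈ s, ∀ j ∈ s, i ≠ j → δ ≤ ‖e i - e j‖)
    (hT : ∀ i ∈ s, tube δ (a i) (e i) ⊆ cthickening (K * δ) (V : Set (E n)))
    {u : E n} (hu : ‖u‖ = 1) (huV : u ∈ V.direction) {φ : ℝ} (hφ : δ ≤ φ) :
    ((s.filter fun i => |inner ℝ u (e i)| ≤ φ).card : ℝ) * δ ^ q ≤ Cc n * (2 * K) ^ n * φ := by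
  have hne : (V : Set (E n)).Nonempty := nonempty_of_finrank (by omega)
  have hfr := V.direction.finrank_add_finrank_orthogonal
  rw [hV, finrank_euclideanSpace_fin] at hfr
  set p : ℕ := Module.finrank ℝ (V.directionᗮ : Submodule ℝ (E n)) with hp
  set b := stdOrthonormalBasis ℝ (V.directionᗮ : Submodule ℝ (E n)) with hb
  set v : Option (Fin p) → E n := fun t => t.elim u (fun t => (b t : E n)) with hv
  have hbo : ∀ t, ∀ w ∈ V.direction, inner ℝ (b t : E n) w = 0 := by
    intro t w hw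
    exact (Submodule.mem_orthogonal' _ _).1 (b t).2 w hw
  have horth : Orthonormal ℝ v := by
    constructor
    · rintro (_ | t)
      · exact hu
      · have := b.orthonormal.1 t
        exact this
    · rintro (_ | t) (_ | t') hne
      · exact absurd rfl hne
      · show inner ℝ u (b t' : E n) = 0
        rw [real_inner_comm]
        exact hbo t' u huV
      · show inner ℝ (b t : E n) u = 0
        exact hbo t u huV
      · have h1 : inner ℝ (b t) (b t') = (0 : ℝ) := b.orthonormal.2 (fun h => hne (by rw [h]))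
        exact h1
  have h1 := count_le v horth q (by rw [Fintype.card_option, Fintype.card_fin]; omega)
    (fun t => t.elim φ (fun _ => 2 * K * δ)) hδ hδ1 (by
      rintro (_ | t)
      · exact hφ
      · show δ ≤ 2 * K * δ
        nlinarith)
    (s.filter fun i => |inner ℝ u (e i)| ≤ φ) e
    (fun i hi => he i (Finset.mem_filter.1 hi).1)
    (fun i hi j hj hij => hsep i (Finset.mem_filter.1 hi).1 j (Finset.mem_filter.1 hj).1 hij)
    (by
      rintro i hi (_ | t)
      · exact (Finset.mem_filter.1 hi).2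
      · show |inner ℝ (b t : E n) (e i)| ≤ 2 * K * δ
        have hi1 := (Finset.mem_filter.1 hi).1
        have hbn : ‖(b t : E n)‖ = 1 := b.orthonormal.1 t
        have h2 := dir_near (κ := K * δ) (by positivity) hδ.le hbn
          (hbo t) hne (he i hi1) (hT i hi1)
        linarith)
  rw [Fintype.prod_option] at h1
  simp only [Option.elim_none, Option.elim_some, Finset.prod_const, Finset.card_univ,
    Fintype.card_fin] at h1
  have hnq : n = q + 1 + p := by omega
  have e1 : δ ^ n = δ ^ q * (δ * δ ^ p) := by rw [hnq]; ring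
  rw [e1, mul_pow] at h1
  have h2 : ((s.filter fun i => |inner ℝ u (e i)| ≤ φ).card : ℝ) * δ ^ q * (δ * δ ^ p) ≤
      (Cc n * (2 * K) ^ p * φ) * (δ * δ ^ p) := by
    calc _ = ((s.filter fun i => |inner ℝ u (e i)| ≤ φ).card : ℝ) * (δ ^ q * (δ * δ ^ p)) := by ring
      _ ≤ _ := h1
      _ = _ := by ring
  have h3 := le_of_mul_le_mul_right h2 (by positivity)
  refine h3.trans ?_
  have hc := Cc_pos n
  have hφ0 : 0 < φ := hδ.trans_le hφ
  have h4 : (2 * K) ^ p ≤ (2 * K) ^ n := pow_le_pow_right₀ (by linarith) (by omega)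
  gcongr

end Pool.Agent.Zk61.KP
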