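import Pool.Agent.Zk61.KP.Count

set_option autoImplicit false

/-!
# Tubes against slabs
-/

open MeasureTheory Set Metric
open scoped ENNReal

namespace Pool.Agent.Zk61.KP

open Classical in
/-- The number of the sets `T i`, `i ∈ s`, that contain `x`. -/
noncomputable def cnt {n : ℕ} {ι : Type} (T : ι → Set (E n)) (s : Finset ι) (x : E n) : ℕ :=
  (s.filter fun i => x ∈ T i).card

open Classical in
theorem harm_sum {ι : Type} (s : Finset ι) (h : ι → ℝ) {M δ : ℝ} (hδ : 0 < δ)
    (hc : ∀ φ, δ ≤ φ → ((s.filter fun i => h i ≤ φ).card : ℝ) * δ ≤ M * φ) (J : ℕ) :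
    ∀ φ : ℝ, δ ≤ φ → (s.card : ℝ) * δ ≤ M * (φ * 2 ^ J) →
      ∑ i ∈ s.filter (fun i => φ < h i), δ / h i ≤ M * (1 + 2 * J) := by
  induction J with
  | zero =>
    intro φ hφ hN
    have hφ0 : 0 < φ := hδ.trans_le hφ
    calc ∑ i ∈ s.filter (fun i => φ < h i), δ / h i
        ≤ ∑ i ∈ s.filter (fun i => φ < h i), δ / φ := by
          apply Finset.sum_le_sum
          intro i hi
          have := (Finset.mem_filter.1 hi).2
          gcongr
      _ = (s.filter (fun i => φ < h i)).card * (δ / φ) := by rw [Finset.sum_const, nsmul_eq_mul]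
      _ ≤ s.card * (δ / φ) := by
          gcongr
          exact Finset.filter_subset _ _
      _ ≤ M := by
          rw [mul_div_assoc', div_le_iff₀ hφ0]
          simpa using hN
      _ = M * (1 + 2 * ((0 : ℕ) : ℝ)) := by simp
  | succ J ih =>
    intro φ hφ hN
    have hφ0 : 0 < φ := hδ.trans_le hφ
    have h1 := ih (2 * φ) (by linarith) (by
      refine hN.trans (le_of_eq ?_)
      rw [pow_succ]; ring)
    have hsplit : s.filter (fun i => φ < h i) =
        (s.filter fun i => φ < h i ∧ h i ≤ 2 * φ) ∪ s.filter (fun i => 2 * φ < h i) := by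
      ext i
      simp only [Finset.mem_filter, Finset.mem_union]
      constructor
      · rintro ⟨hi, h2⟩
        rcases le_or_gt (h i) (2 * φ) with h3 | h3
        · exact Or.inl ⟨hi, h2, h3⟩
        · exact Or.inr ⟨hi, h3⟩
      · rintro (⟨hi, h2, _⟩ | ⟨hi, h2⟩)
        · exact ⟨hi, h2⟩
        · exact ⟨hi, by linarith⟩
    have hnn : ∀ i ∈ s.filter (fun i => φ < h i), 0 ≤ δ / h i := by
      intro i hi
      have h2 := (Finset.mem_filter.1 hi).2
      have : 0 < h i := hφ0.trans h2
      positivity
    have h2 : ∑ i ∈ s.filter (fun i => φ < h i ∧ h i ≤ 2 * φ), δ / h i ≤ 2 * M := by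
      calc ∑ i ∈ s.filter (fun i => φ < h i ∧ h i ≤ 2 * φ), δ / h i
          ≤ ∑ i ∈ s.filter (fun i => φ < h i ∧ h i ≤ 2 * φ), δ / φ := by
            apply Finset.sum_le_sum
            intro i hi
            have := (Finset.mem_filter.1 hi).2.1
            gcongr
        _ = (s.filter (fun i => φ < h i ∧ h i ≤ 2 * φ)).card * (δ / φ) := by
            rw [Finset.sum_const, nsmul_eq_mul]
        _ ≤ (s.filter (fun i => h i ≤ 2 * φ)).card * (δ / φ) := by
            gcongr
            intro hi
            exact hi.2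
        _ ≤ 2 * M := by
            rw [mul_div_assoc', div_le_iff₀ hφ0]
            have := hc (2 * φ) (by linarith)
            linarith
    calc ∑ i ∈ s.filter (fun i => φ < h i), δ / h i
        ≤ ∑ i ∈ s.filter (fun i => φ < h i ∧ h i ≤ 2 * φ), δ / h i +
          ∑ i ∈ s.filter (fun i => 2 * φ < h i), δ / h i := by
          have hd : Disjoint (s.filter fun i => φ < h i ∧ h i ≤ 2 * φ)
              (s.filter fun i => 2 * φ < h i) := by
            rw [Finset.disjoint_left]
            intro i hi hi'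
            have h3 := (Finset.mem_filter.1 hi).2.2
            have h4 := (Finset.mem_filter.1 hi').2
            linarith
          rw [hsplit, Finset.sum_union hd]
      _ ≤ 2 * M + M * (1 + 2 * J) := add_le_add h2 h1
      _ = M * (1 + 2 * ((J + 1 : ℕ) : ℝ)) := by push_cast; ring

open Classical in
/-- Sum over all indices. -/
theorem harm_sum_all {ι : Type} (s : Finset ι) (h : ι → ℝ) {M δ : ℝ} (hδ : 0 < δ)
    (hc : ∀ φ, δ ≤ φ → ((s.filter fun i => h i ≤ φ).card : ℝ) * δ ≤ M * φ) (J : ℕ)
    (hN : (s.card : ℝ) ≤ M * 2 ^ J) :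
    ∑ i ∈ s, δ / max δ (h i) ≤ M * (2 + 2 * J) := by
  have h1 := harm_sum s h hδ hc J δ le_rfl (by nlinarith)
  have h2 : ((s.filter fun i => h i ≤ δ).card : ℝ) ≤ M := by
    have := hc δ le_rfl
    exact le_of_mul_le_mul_right this hδ
  have h3 : ∑ i ∈ s, δ / max δ (h i) = ∑ i ∈ s.filter (fun i => h i ≤ δ), δ / max δ (h i) +
      ∑ i ∈ s.filter (fun i => ¬ h i ≤ δ), δ / max δ (h i) :=
    (Finset.sum_filter_add_sum_filter_not s _ _).symm
  have h4 : ∑ i ∈ s.filter (fun i => h i ≤ δ), δ / max δ (h i) =
      (s.filter fun i => h i ≤ δ).card := by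
    rw [Finset.sum_congr rfl (g := fun _ => (1 : ℝ))]
    · simp
    · intro i hi
      rw [max_eq_left (Finset.mem_filter.1 hi).2, div_self hδ.ne']
  have h5 : ∑ i ∈ s.filter (fun i => ¬ h i ≤ δ), δ / max δ (h i) =
      ∑ i ∈ s.filter (fun i => δ < h i), δ / h i := by
    apply Finset.sum_congr
    · ext i; simp
    · intro i hi
      have := (Finset.mem_filter.1 hi).2
      rw [max_eq_right this.le]
  rw [h3, h4, h5]
  linarith

/-- Volume of the part of a tube in a slab, second form. -/
theorem vol_tube_slab' {n d : ℕ} (hn : 1 + d = n) {δ K g : ℝ} (hδ : 0 < δ) (hK : 0 ≤ K)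
    {a e u : E n} (he : ‖e‖ = 1) (hu : ‖u‖ = 1) :
    volume (tube δ a e ∩ {x | |inner ℝ u x - g| ≤ K * δ}) ≤
      ENNReal.ofReal ((2 * δ) ^ d * (2 * (K + 1)) * (δ / max δ |inner ℝ u e|)) := by
  rcases le_or_gt |inner ℝ u e| δ with h | h
  · rw [max_eq_left h, div_self hδ.ne', mul_one]
    refine (measure_mono inter_subset_left).trans ((vol_tube hn hδ.le he).trans ?_)
    apply ENNReal.ofReal_le_ofReal
    have : 0 ≤ (2 * δ) ^ d := by positivity
    nlinarith
  · have h0 : 0 < |inner ℝ u e| := hδ.trans h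
    refine (vol_tube_slab hn hδ.le (by positivity) he hu h0).trans ?_
    apply ENNReal.ofReal_le_ofReal
    rw [max_eq_right h.le, mul_assoc]
    gcongr
    refine (min_le_right _ _).trans (le_of_eq ?_)
    ring

theorem measurable_cnt {n : ℕ} {ι : Type} (T : ι → Set (E n)) (hT : ∀ i, MeasurableSet (T i))
    (s : Finset ι) : Measurable (fun x => (cnt T s x : ℝ)) := by
  classical
  have h1 : (fun x => (cnt T s x : ℝ)) =
      fun x => ∑ i ∈ s, (T i).indicator (fun _ => (1 : ℝ)) x := by
    ext x
    unfold cnt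
    rw [Finset.card_filter]
    push_cast
    rfl
  rw [h1]
  exact Finset.measurable_sum _ fun i _ => measurable_const.indicator (hT i)

open Classical in
theorem cnt_fiber {n : ℕ} {ι κ : Type} [DecidableEq κ] (T : ι → Set (E n)) (s : Finset ι)
    (c : ι → κ) (x : E n) :
    cnt T s x = ∑ l ∈ s.image c, cnt T (s.filter fun i => c i = l) x := by
  unfold cnt
  rw [Finset.card_eq_sum_card_fiberwise (f := c) (t := s.image c)]
  · apply Finset.sum_congr rfl
    intro l _
    congr 1
    ext i
    simp only [Finset.mem_filter]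
    tauto
  · intro i hi
    simp only [Finset.coe_filter, Set.mem_ofPred_eq] at hi
    exact Finset.mem_coe.2 (Finset.mem_image_of_mem _ hi.1)

open Classical in
/-- **Tubes against slabs.** -/
theorem step_b {n d : ℕ} (hn : 1 + d = n) {ι κ : Type} [DecidableEq κ] (a e : ι → E n)
    (s : Finset ι) (c : ι → κ) {δ K m P Ω : ℝ} (hδ : 0 < δ) (hK : 0 ≤ K) (hm : 1 ≤ m)
    (hP : 0 < P) (he : ∀ i ∈ s, ‖e i‖ = 1) (u : κ → E n) (g : κ → ℝ)
    (hu : ∀ l ∈ s.image c, ‖u l‖ = 1)
    (hS : ∀ i ∈ s, ∀ x ∈ tube δ (a i) (e i), |inner ℝ (u (c i)) x - g (c i)| ≤ K * δ)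
    (A : κ → Finset ι) (hA : ∀ l ∈ s.image c, A l ⊆ s)
    (hAc : ∀ l ∈ s.image c, ((s \ A l).card : ℝ) ≤ m * P / 2)
    (hΩ : ∀ l ∈ s.image c, ∑ i ∈ A l, δ / max δ |inner ℝ (u l) (e i)| ≤ Ω) :
    ENNReal.ofReal (m * P ^ 2 / 2) * volume {x | P ≤ (((s.image c).filter fun l =>
        m ≤ (cnt (fun i => tube δ (a i) (e i)) (s.filter fun i => c i = l) x : ℝ)).card : ℝ)} ≤
      ENNReal.ofReal ((2 * δ) ^ d * (2 * (K + 1)) * ((s.image c).card * Ω)) := by
  set T : ι → Set (E n) := fun i => tube δ (a i) (e i) with hT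
  set S : κ → Set (E n) := fun l => {x | |inner ℝ (u l) x - g l| ≤ K * δ} with hSdef
  have hTm : ∀ i, MeasurableSet (T i) := fun i => measurableSet_tube _ _ _
  have hSm : ∀ l, MeasurableSet (S l) := by
    intro l
    apply IsClosed.measurableSet
    exact isClosed_le (by fun_prop) continuous_const
  set Q : E n → ℝ≥0∞ := fun x => ∑ l ∈ s.image c, ∑ i ∈ A l,
    (T i ∩ S l).indicator (fun _ => (1 : ℝ≥0∞)) x with hQ
  have hQm : Measurable Q := by
    refine Finset.measurable_sum _ fun l _ => Finset.measurable_sum _ fun i _ => ?_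
    exact measurable_const.indicator ((hTm i).inter (hSm l))
  rw [← setLIntegral_const]
  refine (setLIntegral_mono hQm ?_).trans ((setLIntegral_le_lintegral _ _).trans ?_)
  · intro x hx
    have hx1 : P ≤ (((s.image c).filter fun l =>
        m ≤ (cnt T (s.filter fun i => c i = l) x : ℝ)).card : ℝ) := hx
    set C : Finset κ := (s.image c).filter fun l =>
        m ≤ (cnt T (s.filter fun i => c i = l) x : ℝ) with hC
    have hQx : Q x = ((∑ l ∈ s.image c, ((A l).filter fun i => x ∈ T i ∩ S l).card : ℕ) : ℝ≥0∞) := by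
      rw [hQ]
      simp only
      push_cast
      apply Finset.sum_congr rfl
      intro l _
      rw [Finset.card_filter]
      push_cast
      apply Finset.sum_congr rfl
      intro i _
      rw [Set.indicator_apply]
    rw [hQx, ← ENNReal.ofReal_natCast]
    apply ENNReal.ofReal_le_ofReal
    push_cast
    -- the number of tubes through `x`
    have h1 : m * (C.card : ℝ) ≤ (cnt T s x : ℝ) := by
      rw [cnt_fiber T s c x]
      push_cast
      calc m * (C.card : ℝ) = ∑ l ∈ C, m := by rw [Finset.sum_const, nsmul_eq_mul, mul_comm]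
        _ ≤ ∑ l ∈ C, (cnt T (s.filter fun i => c i = l) x : ℝ) := by
            apply Finset.sum_le_sum
            intro l hl
            exact (Finset.mem_filter.1 hl).2
        _ ≤ _ := by
            apply Finset.sum_le_sum_of_subset_of_nonneg (Finset.filter_subset _ _)
            intro l _ _
            exact Nat.cast_nonneg _
    have h2 : ∀ l ∈ C, m * (C.card : ℝ) / 2 ≤ (((A l).filter fun i => x ∈ T i ∩ S l).card : ℝ) := by
      intro l hl
      have hl1 := (Finset.mem_filter.1 hl).1
      have hl2 := (Finset.mem_filter.1 hl).2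
      have hxS : x ∈ S l := by
        have h3 : 0 < cnt T (s.filter fun i => c i = l) x := by
          have : (0 : ℝ) < (cnt T (s.filter fun i => c i = l) x : ℝ) := by linarith
          exact_mod_cast this
        unfold cnt at h3
        obtain ⟨i, hi⟩ := Finset.card_pos.1 h3
        rw [Finset.mem_filter, Finset.mem_filter] at hi
        obtain ⟨⟨hi1, hi2⟩, hi3⟩ := hi
        have := hS i hi1 x hi3
        rw [hi2] at this
        exact this
      have h3 : (s.filter fun i => x ∈ T i) ⊆ ((A l).filter fun i => x ∈ T i ∩ S l) ∪ (s \ A l) := by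
        intro i hi
        rw [Finset.mem_filter] at hi
        rw [Finset.mem_union, Finset.mem_filter, Finset.mem_sdiff]
        by_cases hiA : i ∈ A l
        · exact Or.inl ⟨hiA, hi.2, hxS⟩
        · exact Or.inr ⟨hi.1, hiA⟩
      have h4 := (Finset.card_le_card h3).trans (Finset.card_union_le _ _)
      have h5 : (cnt T s x : ℝ) ≤ (((A l).filter fun i => x ∈ T i ∩ S l).card : ℝ) +
          ((s \ A l).card : ℝ) := by
        unfold cnt
        exact_mod_cast h4
      have h6 := hAc l hl1
      have h7 : m * P ≤ m * (C.card : ℝ) := by gcongr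
      linarith
    calc m * P ^ 2 / 2 ≤ (C.card : ℝ) * (m * (C.card : ℝ) / 2) := by
          have hP2 : P ^ 2 ≤ (C.card : ℝ) ^ 2 := by gcongr
          nlinarith
      _ = ∑ l ∈ C, m * (C.card : ℝ) / 2 := by rw [Finset.sum_const, nsmul_eq_mul]
      _ ≤ ∑ l ∈ C, (((A l).filter fun i => x ∈ T i ∩ S l).card : ℝ) := Finset.sum_le_sum h2
      _ ≤ _ := by
          apply Finset.sum_le_sum_of_subset_of_nonneg (Finset.filter_subset _ _)
          intro l _ _
          exact Nat.cast_nonneg _
  · have h1 : ∫⁻ x, Q x = ∑ l ∈ s.image c, ∑ i ∈ A l, volume (T i ∩ S l) := by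
      rw [hQ]
      rw [lintegral_finsetSum _ fun l _ => Finset.measurable_sum _ fun i _ =>
        measurable_const.indicator ((hTm i).inter (hSm l))]
      apply Finset.sum_congr rfl
      intro l _
      rw [lintegral_finsetSum _ fun i _ => measurable_const.indicator ((hTm i).inter (hSm l))]
      apply Finset.sum_congr rfl
      intro i _
      rw [lintegral_indicator ((hTm i).inter (hSm l)), setLIntegral_const, one_mul]
    rw [h1]
    calc ∑ l ∈ s.image c, ∑ i ∈ A l, volume (T i ∩ S l)
        ≤ ∑ l ∈ s.image c, ∑ i ∈ A l,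
          ENNReal.ofReal ((2 * δ) ^ d * (2 * (K + 1)) * (δ / max δ |inner ℝ (u l) (e i)|)) := by
          apply Finset.sum_le_sum
          intro l hl
          apply Finset.sum_le_sum
          intro i hi
          exact vol_tube_slab' hn hδ hK (he i (hA l hl hi)) (hu l hl)
      _ = ENNReal.ofReal (∑ l ∈ s.image c, ∑ i ∈ A l,
          ((2 * δ) ^ d * (2 * (K + 1)) * (δ / max δ |inner ℝ (u l) (e i)|))) := by
          rw [ENNReal.ofReal_sum_of_nonneg]
          · apply Finset.sum_congr rfl
            intro l _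
            rw [ENNReal.ofReal_sum_of_nonneg]
            intro i _
            positivity
          · intro l _
            exact Finset.sum_nonneg fun i _ => by positivity
      _ ≤ _ := by
          apply ENNReal.ofReal_le_ofReal
          calc ∑ l ∈ s.image c, ∑ i ∈ A l,
              ((2 * δ) ^ d * (2 * (K + 1)) * (δ / max δ |inner ℝ (u l) (e i)|))
              = (2 * δ) ^ d * (2 * (K + 1)) *
                ∑ l ∈ s.image c, ∑ i ∈ A l, (δ / max δ |inner ℝ (u l) (e i)|) := by
                rw [Finset.mul_sum]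
                apply Finset.sum_congr rfl
                intro l _
                rw [Finset.mul_sum]
            _ ≤ (2 * δ) ^ d * (2 * (K + 1)) * ∑ l ∈ s.image c, Ω := by
                gcongr with l hl
                exact hΩ l hl
            _ = _ := by rw [Finset.sum_const, nsmul_eq_mul]

end Pool.Agent.Zk61.KP
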